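import Pool.Agent.W5h8.TangG

/-!
Tangled labelings: the elements with the two largest labels, and the number of tangled labelings.
-/

set_option autoImplicit false
set_option linter.unusedSectionVars false

namespace Pool.Agent.U620.TG

open Pool.Agent.W5h8.Tang

variable {P : Type*} [PartialOrder P] [Fintype P]

/-- The two largest labels of a labeling which is not sorted after `n - 2` promotions. -/
theorem struct {L : P → ℕ} (hL : IsState 0 L) {N : ℕ} (hN : Fintype.card P = N + 2)
    (hns : ¬ Sorted 0 (run 0 L N)) :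
    ∃ y z x, (∀ u, u < z ↔ u = y) ∧ z ≤ x ∧ L y = N + 2 ∧ L x = N + 1 := by
  obtain ⟨y, z, hy, hyz, h1, h2, h3⟩ := tangled_struct hL hN hns
  have hst := hL.run0 N
  have hhigh := sorted_high hL N
  obtain ⟨x, hx1, hx2⟩ := run_up hL (k := N + 1) (j := N) (by omega) h3
  refine ⟨y, z, x, fun u => ⟨fun hu => ?_, fun hu => hu ▸ hyz⟩, hx1, h1, hx2⟩
  by_contra hne
  have e1 : run 0 L N u ≠ N + 2 := fun h => hne (hst.1 (h.trans h2.symm))
  have e2 : run 0 L N u ≠ N + 1 := fun h => hu.ne (hst.1 (h.trans h3.symm))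
  have e3 := (hst.2 u).1
  have e4 := hhigh u z hu (by omega)
  omega

/-- There are at most `(n - 2)!` labelings with given elements at the two largest labels. -/
theorem card_two {N : ℕ} (hN : Fintype.card P = N + 2) {y x : P} (hxy : y ≠ x) :
    {L : P → ℕ | IsState 0 L ∧ L y = N + 2 ∧ L x = N + 1}.ncard ≤ N.factorial := by
  classical
  have hc : Fintype.card {u : P // u ≠ y ∧ u ≠ x} = N := by
    have h1 : Fintype.card {u : P // u ≠ y ∧ u ≠ x} = (Finset.univ \ {y, x} : Finset P).card := by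
      rw [Fintype.card_subtype]
      congr 1
      ext u
      simp
    rw [h1, Finset.card_sdiff_of_subset (Finset.subset_univ _), Finset.card_univ, hN,
      Finset.card_pair hxy]
    omega
  have hemb : Fintype.card ({u : P // u ≠ y ∧ u ≠ x} ↪ Fin N) = N.factorial := by
    rw [Fintype.card_embedding_eq, hc, Fintype.card_fin, Nat.descFactorial_self]
  rw [← hemb, ← Nat.card_eq_fintype_card, ← Set.ncard_univ]
  have hpos : ∀ L : P → ℕ, IsState 0 L → L y = N + 2 → L x = N + 1 →
      ∀ u, u ≠ y → u ≠ x → L u - 1 < N := by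
    intro L h h1 h2 u hu hu'
    have h3 := h.2 u
    have h4 : L u ≠ N + 2 := fun e => hu (h.1 (e.trans h1.symm))
    have h5 : L u ≠ N + 1 := fun e => hu' (h.1 (e.trans h2.symm))
    omega
  refine Set.ncard_le_ncard_of_injOn (fun L =>
    if h : IsState 0 L ∧ L y = N + 2 ∧ L x = N + 1 then
      (⟨fun u => ⟨L u.1 - 1, hpos L h.1 h.2.1 h.2.2 u.1 u.2.1 u.2.2⟩, fun u v huv => by
        have h3 := (h.1.2 u.1).1
        have h4 := (h.1.2 v.1).1
        have h5 : L u.1 - 1 = L v.1 - 1 := congrArg Fin.val huv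
        exact Subtype.ext (h.1.1 (by omega))⟩ : {u : P // u ≠ y ∧ u ≠ x} ↪ Fin N)
    else Classical.choice (by
      refine ⟨⟨fun u => (Fintype.equivFinOfCardEq hc) u, (Fintype.equivFinOfCardEq hc).injective⟩⟩))
    (fun _ _ => Set.mem_univ _) ?_ (Set.toFinite _)
  intro L hL L' hL' hLL
  simp only [Set.mem_ofPred_eq] at hL hL'
  simp only [dif_pos hL, dif_pos hL'] at hLL
  funext u
  by_cases h1 : u = y
  · rw [h1, hL.2.1, hL'.2.1]
  by_cases h2 : u = x
  · rw [h2, hL.2.2, hL'.2.2]
  have h3 := DFunLike.congr_fun hLL (⟨u, h1, h2⟩ : {u : P // u ≠ y ∧ u ≠ x})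
  have h4 : L u - 1 = L' u - 1 := congrArg Fin.val h3
  have h5 := (hL.1.2 u).1
  have h6 := (hL'.1.2 u).1
  omega

/-- The pairs `(y, x)` such that some `z ≤ x` has `y` as its only lower element. -/
def Pairs (P : Type*) [PartialOrder P] : Set (P × P) :=
  {p | ∃ z, z ≤ p.2 ∧ ∀ u, u < z ↔ u = p.1}

theorem Pairs.ne {p : P × P} (h : p ∈ Pairs P) : p.1 ≠ p.2 := by
  obtain ⟨z, h1, h2⟩ := h
  exact (lt_of_lt_of_le ((h2 p.1).2 rfl) h1).ne

theorem card_tangled {N : ℕ} (hN : Fintype.card P = N + 2) :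
    {L : P → ℕ | IsState 0 L ∧ ¬ Sorted 0 (run 0 L N)}.ncard ≤ N.factorial * (Pairs P).ncard := by
  classical
  have hfin : (Pairs P).Finite := Set.toFinite _
  have hsub : {L : P → ℕ | IsState 0 L ∧ ¬ Sorted 0 (run 0 L N)} ⊆
      ⋃ p ∈ hfin.toFinset, {L : P → ℕ | IsState 0 L ∧ L p.1 = N + 2 ∧ L p.2 = N + 1} := by
    rintro L ⟨hL, hns⟩
    obtain ⟨y, z, x, h1, h2, h3, h4⟩ := struct hL hN hns
    simp only [Set.mem_iUnion, Set.Finite.mem_toFinset]
    exact ⟨(y, x), ⟨z, h2, h1⟩, hL, h3, h4⟩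
  have hF : ∀ p : P × P,
      {L : P → ℕ | IsState 0 L ∧ L p.1 = N + 2 ∧ L p.2 = N + 1}.Finite :=
    fun p => (finite_states (P := P) 0).subset fun L hL => hL.1
  have hU : (⋃ p ∈ hfin.toFinset,
      {L : P → ℕ | IsState 0 L ∧ L p.1 = N + 2 ∧ L p.2 = N + 1}).Finite :=
    (finite_states (P := P) 0).subset fun L hL => by
      simp only [Set.mem_iUnion] at hL
      obtain ⟨_, _, h⟩ := hL
      exact h.1
  refine (Set.ncard_le_ncard hsub hU).trans ?_
  have h2 : ∀ s : Finset (P × P), (∀ p ∈ s, p.1 ≠ p.2) →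
      (⋃ p ∈ s, {L : P → ℕ | IsState 0 L ∧ L p.1 = N + 2 ∧ L p.2 = N + 1}).ncard ≤
        N.factorial * s.card := by
    intro s
    induction s using Finset.induction_on with
    | empty => intro _; simp
    | insert p s hp ih =>
      intro hs
      have e : N.factorial * (insert p s).card = N.factorial + N.factorial * s.card := by
        rw [Finset.card_insert_of_notMem hp]
        ring
      rw [e, Finset.set_biUnion_insert]
      exact (Set.ncard_union_le _ _).trans (add_le_add
        (card_two hN (hs p (Finset.mem_insert_self _ _)))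
        (ih fun q hq => hs q (Finset.mem_insert_of_mem hq)))
  have h3 := h2 hfin.toFinset (fun p hp => Pairs.ne ((Set.Finite.mem_toFinset _).1 hp))
  rwa [← Set.ncard_eq_toFinset_card _ hfin] at h3

end Pool.Agent.U620.TG
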