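import Pool.Agent.W5h8.TangG

/-!
Labelings that are not sorted after `n - 3` promotions: bounds for their number.
-/

set_option autoImplicit false
set_option linter.unusedSectionVars false

namespace Pool.Agent.U620.TG

open Pool.Agent.W5h8.Tang

variable {P : Type*} [PartialOrder P] [Fintype P]

/-- If a labeling is not sorted after `N` promotions then the labels larger than `N` are not in order. -/
theorem inv {L : P → ℕ} (hL : IsState 0 L) {N : ℕ} (hns : ¬ Sorted 0 (run 0 L N)) :
    ∃ y z, y < z ∧ N < L z ∧ L z < L y := by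
  have hst := hL.run0 N
  have hhigh := sorted_high hL N
  unfold Sorted at hns
  push Not at hns
  obtain ⟨y, z, hyz, _, hle⟩ := hns
  have hne : run 0 L N z ≠ run 0 L N y := fun h => absurd (hst.1 h) hyz.ne'
  have hy1 : run 0 L N y ≤ Fintype.card P := by
    by_contra h
    have := hhigh y z hyz (by omega)
    omega
  have h1 := (hst.2 z).1
  obtain ⟨a, ha⟩ : ∃ a, run 0 L N y = a := ⟨_, rfl⟩
  obtain ⟨b, hb⟩ : ∃ b, run 0 L N z = b := ⟨_, rfl⟩
  rw [ha] at hy1
  have hba : b < a := by
    rw [← ha, ← hb]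
    omega
  have hback : ∀ i ≤ N, run 0 L (N - i) y = a ∧ ∃ z', y < z' ∧ run 0 L (N - i) z' = b := by
    intro i hi
    induction i with
    | zero => exact ⟨ha, z, hyz, hb⟩
    | succ i ih =>
      obtain ⟨ih1, z', hz'1, hz'2⟩ := ih (by omega)
      have e1 : N - i = (N - (i + 1)) + 1 := by omega
      have hst' := hL.run0 (N - (i + 1))
      rw [e1] at ih1 hz'2
      obtain ⟨z2, hz2, hz2'⟩ := prom_key_up_le (hL.run (N - (i + 1))).1 hz'2 (by omega)
      obtain ⟨p, hp, h | h⟩ := prom_key_up (hL.run (N - (i + 1))).1 ih1 (by omega)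
      · exact ⟨by rw [← h.1, hp], z2, lt_of_lt_of_le hz'1 hz2, hz2'⟩
      · have h7 := h.2.2 z2 (lt_of_lt_of_le hz'1 hz2)
        exact absurd (h7.trans_eq hz2') (not_le.2 (hba.trans_eq hp.symm))
  obtain ⟨h2, z', h3, h4⟩ := hback N le_rfl
  rw [Nat.sub_self] at h2 h4
  have h5 : L y = a := h2
  have h6 : L z' = b := h4
  exact ⟨y, z', h3, by omega, by omega⟩

/-- The labelings for which the labels larger than `N` are in order. -/
def Good (N : ℕ) : Set (P → ℕ) := {L | IsState 0 L ∧ ∀ y z, y < z → N < L z → ¬ L z < L y}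

theorem mem_good {N : ℕ} (hN : Fintype.card P = N + 3) {L : P → ℕ} (hL : IsState 0 L) {a b c : P}
    (ha : L a = N + 1) (hb : L b = N + 2) (hc : L c = N + 3) (h1 : ¬ b < a) (h2 : ¬ c < a)
    (h3 : ¬ c < b) : L ∈ (Good N : Set (P → ℕ)) := by
  refine ⟨hL, fun y z hyz hz hlt => ?_⟩
  have hy := (hL.2 y).2
  have e1 : L z = N + 1 ∨ L z = N + 2 := by omega
  rcases e1 with e1 | e1
  · have hz' : z = a := hL.1 (e1.trans ha.symm)
    have e2 : L y = N + 2 ∨ L y = N + 3 := by omega
    rcases e2 with e2 | e2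
    · have hy' : y = b := hL.1 (e2.trans hb.symm)
      subst hz' hy'
      exact h1 hyz
    · have hy' : y = c := hL.1 (e2.trans hc.symm)
      subst hz' hy'
      exact h2 hyz
  · have hz' : z = b := hL.1 (e1.trans hb.symm)
    have e2 : L y = N + 3 := by omega
    have hy' : y = c := hL.1 (e2.trans hc.symm)
    subst hz' hy'
    exact h3 hyz

theorem card_all_le : {L : P → ℕ | IsState 0 L}.ncard ≤ (Fintype.card P).factorial := by
  classical
  have hemb : Fintype.card (P ↪ Fin (Fintype.card P)) = (Fintype.card P).factorial := by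
    rw [Fintype.card_embedding_eq, Fintype.card_fin, Nat.descFactorial_self]
  rw [← hemb, ← Nat.card_eq_fintype_card, ← Set.ncard_univ]
  have hpos : ∀ L : P → ℕ, IsState 0 L → ∀ u, L u - 1 < Fintype.card P := by
    intro L h u
    have h3 := h.2 u
    omega
  refine Set.ncard_le_ncard_of_injOn (fun L =>
    if h : IsState 0 L then
      (⟨fun u => ⟨L u - 1, hpos L h u⟩, fun u v huv => by
        have h3 := (h.2 u).1
        have h4 := (h.2 v).1
        have h5 : L u - 1 = L v - 1 := congrArg Fin.val huv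
        exact h.1 (by omega)⟩ : P ↪ Fin (Fintype.card P))
    else (Fintype.equivFin P).toEmbedding)
    (fun _ _ => Set.mem_univ _) ?_ (Set.toFinite _)
  intro L hL L' hL' hLL
  simp only [Set.mem_ofPred_eq] at hL hL'
  simp only [dif_pos hL, dif_pos hL'] at hLL
  funext u
  have h3 := DFunLike.congr_fun hLL u
  have h4 : L u - 1 = L' u - 1 := congrArg Fin.val h3
  have h5 := (hL.2 u).1
  have h6 := (hL'.2 u).1
  omega

theorem fin_good (N : ℕ) : (Good N : Set (P → ℕ)).Finite :=
  (finite_states (P := P) 0).subset fun _ hL => hL.1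

theorem card_pre (N : ℕ) (T : (P → ℕ) → (P → ℕ))
    (hi : Set.InjOn T {L : P → ℕ | IsState 0 L}) :
    {L : P → ℕ | IsState 0 L ∧ T L ∈ (Good N : Set (P → ℕ))}.ncard ≤
      (Good N : Set (P → ℕ)).ncard :=
  Set.ncard_le_ncard_of_injOn T (fun _ h => h.2) (fun _ h _ h' => hi h.1 h'.1) (fin_good N)

theorem swp_inj (b c : ℕ) : Function.Injective (swp b c : (P → ℕ) → (P → ℕ)) := fun f g h => by
  have := congrArg (swp b c) h
  rwa [swp_swp, swp_swp] at this

theorem card_all_good {N : ℕ} (hN : Fintype.card P = N + 3) :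
    {L : P → ℕ | IsState 0 L}.ncard ≤ 6 * (Good N : Set (P → ℕ)).ncard := by
  classical
  let A : Set (P → ℕ) := {L | IsState 0 L ∧ id L ∈ (Good N : Set (P → ℕ))}
  let B : Set (P → ℕ) := {L | IsState 0 L ∧ swp (N + 1) (N + 2) L ∈ (Good N : Set (P → ℕ))}
  let C : Set (P → ℕ) := {L | IsState 0 L ∧ swp (N + 2) (N + 3) L ∈ (Good N : Set (P → ℕ))}
  let D : Set (P → ℕ) := {L | IsState 0 L ∧ swp (N + 1) (N + 3) L ∈ (Good N : Set (P → ℕ))}
  let E : Set (P → ℕ) := {L | IsState 0 L ∧
    (swp (N + 2) (N + 3) ∘ swp (N + 1) (N + 2)) L ∈ (Good N : Set (P → ℕ))}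
  let F : Set (P → ℕ) := {L | IsState 0 L ∧
    (swp (N + 1) (N + 2) ∘ swp (N + 2) (N + 3)) L ∈ (Good N : Set (P → ℕ))}
  have hsub : {L : P → ℕ | IsState 0 L} ⊆ A ∪ (B ∪ (C ∪ (D ∪ (E ∪ F)))) := by
    intro L hL
    obtain ⟨p, hp⟩ := hL.exists_key (k := N + 1) (by omega) (by omega)
    obtain ⟨q, hq⟩ := hL.exists_key (k := N + 2) (by omega) (by omega)
    obtain ⟨r, hr⟩ := hL.exists_key (k := N + 3) (by omega) (by omega)
    have s12 : IsState 0 (swp (N + 1) (N + 2) L) :=
      hL.swp (by omega) (by omega) (by omega) (by omega)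
    have s23 : IsState 0 (swp (N + 2) (N + 3) L) :=
      hL.swp (by omega) (by omega) (by omega) (by omega)
    have s13 : IsState 0 (swp (N + 1) (N + 3) L) :=
      hL.swp (by omega) (by omega) (by omega) (by omega)
    have a1 : swp (N + 1) (N + 2) L p = N + 2 := swp_left hp
    have a2 : swp (N + 1) (N + 2) L q = N + 1 := swp_right hq
    have a3 : swp (N + 1) (N + 2) L r = N + 3 := by
      rw [swp_of_ne (by omega) (by omega), hr]
    have b1 : swp (N + 2) (N + 3) L p = N + 1 := by
      rw [swp_of_ne (by omega) (by omega), hp]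
    have b2 : swp (N + 2) (N + 3) L q = N + 3 := swp_left hq
    have b3 : swp (N + 2) (N + 3) L r = N + 2 := swp_right hr
    have c1 : swp (N + 1) (N + 3) L p = N + 3 := swp_left hp
    have c2 : swp (N + 1) (N + 3) L q = N + 2 := by
      rw [swp_of_ne (by omega) (by omega), hq]
    have c3 : swp (N + 1) (N + 3) L r = N + 1 := swp_right hr
    by_cases h1 : q < p
    · by_cases h2 : r < p
      · by_cases h3 : r < q
        · -- r, q, p
          refine Or.inr (Or.inr (Or.inr (Or.inl ⟨hL, ?_⟩)))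
          exact mem_good hN s13 c3 c2 c1 h3.asymm h2.asymm h1.asymm
        · -- q, r, p
          refine Or.inr (Or.inr (Or.inr (Or.inr (Or.inl ⟨hL, ?_⟩))))
          refine mem_good hN (a := q) (b := r) (c := p)
            (s12.swp (by omega) (by omega) (by omega) (by omega)) ?_ ?_ ?_ h3 h1.asymm h2.asymm
          · exact (swp_of_ne (by rw [a2]; omega) (by rw [a2]; omega)).trans a2
          · exact swp_right a3
          · exact swp_left a1
      · -- q, p, r
        refine Or.inr (Or.inl ⟨hL, ?_⟩)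
        exact mem_good hN s12 a2 a1 a3 h1.asymm (fun h => h2 (h.trans h1)) h2
    · by_cases h2 : r < p
      · -- r, p, q
        refine Or.inr (Or.inr (Or.inr (Or.inr (Or.inr ⟨hL, ?_⟩))))
        refine mem_good hN (a := r) (b := p) (c := q)
          (s23.swp (by omega) (by omega) (by omega) (by omega)) ?_ ?_ ?_ h2.asymm
          (fun h => h1 (h.trans h2)) h1
        · exact swp_right b3
        · exact swp_left b1
        · exact (swp_of_ne (by rw [b2]; omega) (by rw [b2]; omega)).trans b2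
      · by_cases h3 : r < q
        · -- p, r, q
          refine Or.inr (Or.inr (Or.inl ⟨hL, ?_⟩))
          exact mem_good hN s23 b1 b3 b2 h2 h1 h3.asymm
        · exact Or.inl ⟨hL, mem_good hN hL hp hq hr h1 h2 h3⟩
  have hfin : (A ∪ (B ∪ (C ∪ (D ∪ (E ∪ F))))).Finite :=
    (finite_states (P := P) 0).subset (by
      rintro L (h | h | h | h | h | h) <;> exact h.1)
  have i12 := swp_inj (P := P) (N + 1) (N + 2)
  have i23 := swp_inj (P := P) (N + 2) (N + 3)
  have i13 := swp_inj (P := P) (N + 1) (N + 3)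
  have e1 : A.ncard ≤ (Good N : Set (P → ℕ)).ncard :=
    card_pre N id Function.injective_id.injOn
  have e2 : B.ncard ≤ (Good N : Set (P → ℕ)).ncard :=
    card_pre N _ i12.injOn
  have e3 : C.ncard ≤ (Good N : Set (P → ℕ)).ncard :=
    card_pre N _ i23.injOn
  have e4 : D.ncard ≤ (Good N : Set (P → ℕ)).ncard :=
    card_pre N _ i13.injOn
  have e5 : E.ncard ≤ (Good N : Set (P → ℕ)).ncard :=
    card_pre N _ (i23.comp i12).injOn
  have e6 : F.ncard ≤ (Good N : Set (P → ℕ)).ncard :=
    card_pre N _ (i12.comp i23).injOn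
  have h0 := Set.ncard_le_ncard hsub hfin
  have h1 := Set.ncard_union_le A (B ∪ (C ∪ (D ∪ (E ∪ F))))
  have h2 := Set.ncard_union_le B (C ∪ (D ∪ (E ∪ F)))
  have h3 := Set.ncard_union_le C (D ∪ (E ∪ F))
  have h4 := Set.ncard_union_le D (E ∪ F)
  have h5 := Set.ncard_union_le E F
  omega

/-- At most `5/6` of all labelings are not sorted after `n - 3` promotions. -/
theorem card_unsorted {N : ℕ} (hN : Fintype.card P = N + 3) :
    6 * {L : P → ℕ | IsState 0 L ∧ ¬ Sorted 0 (run 0 L N)}.ncard ≤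
      5 * (Fintype.card P).factorial := by
  have h1 := card_all_good (P := P) hN
  have h2 := card_all_le (P := P)
  have hd : Disjoint {L : P → ℕ | IsState 0 L ∧ ¬ Sorted 0 (run 0 L N)} (Good N) := by
    rw [Set.disjoint_left]
    rintro L ⟨hL, hns⟩ hG
    obtain ⟨y, z, h3, h4, h5⟩ := inv hL hns
    exact hG.2 y z h3 h4 h5
  have hf1 : {L : P → ℕ | IsState 0 L ∧ ¬ Sorted 0 (run 0 L N)}.Finite :=
    (finite_states (P := P) 0).subset fun _ hL => hL.1
  have h3 := Set.ncard_union_eq hd hf1 (fin_good N)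
  have h4 : ({L : P → ℕ | IsState 0 L ∧ ¬ Sorted 0 (run 0 L N)} ∪ Good N).ncard ≤
      {L : P → ℕ | IsState 0 L}.ncard :=
    Set.ncard_le_ncard (by rintro L (h | h) <;> exact h.1) (finite_states (P := P) 0)
  omega

end Pool.Agent.U620.TG
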