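import Pool.Agent.U620.TG.A
import Pool.Agent.U620.TG.B

/-!
The poset with two minimal elements below all the other elements: quasi-tangled labelings.
-/

set_option autoImplicit false
set_option linter.unusedSectionVars false

namespace Pool.Agent.U620.TG

open Pool.Agent.W5h8.Tang

/-- Two minimal elements `0`, `1` below `N + 1` other elements. -/
def K (N : ℕ) : Type := Fin (N + 3)

instance (N : ℕ) : Fintype (K N) := inferInstanceAs (Fintype (Fin (N + 3)))

theorem card_K (N : ℕ) : Fintype.card (K N) = N + 3 := Fintype.card_fin _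

instance (N : ℕ) : PartialOrder (K N) where
  le a b := a = b ∨ (Fin.val a < 2 ∧ 2 ≤ Fin.val b)
  le_refl a := Or.inl rfl
  le_trans a b c h1 h2 := by
    rcases h1 with rfl | h1
    · exact h2
    · rcases h2 with rfl | h2
      · exact Or.inr h1
      · exact Or.inr ⟨h1.1, h2.2⟩
  le_antisymm a b h1 h2 := by
    rcases h1 with rfl | h1
    · rfl
    · rcases h2 with h2 | h2
      · exact h2.symm
      · omega

theorem lt_K {N : ℕ} {a b : K N} : a < b ↔ (Fin.val a < 2 ∧ 2 ≤ Fin.val b) := by
  constructor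
  · intro h
    rcases h.le with h1 | h1
    · exact absurd h1 h.ne
    · exact h1
  · intro h
    refine lt_of_le_of_ne (Or.inr h) fun e => ?_
    subst e
    omega

def k0 (N : ℕ) : K N := (⟨0, by omega⟩ : Fin (N + 3))
def k1 (N : ℕ) : K N := (⟨1, by omega⟩ : Fin (N + 3))

theorem sorted_K {N : ℕ} {L : K N → ℕ} (hL : IsState 0 L) : Sorted 0 (run 0 L (N + 1)) := by
  by_contra hns
  obtain ⟨y, z, x, h1, -, -, -⟩ := struct hL (N := N + 1) (card_K N) hns
  have hy := lt_K.1 ((h1 y).2 rfl)
  have e0 : k0 N = y := (h1 (k0 N)).1 (lt_K.2 ⟨by show 0 < 2; omega, hy.2⟩)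
  have e1 : k1 N = y := (h1 (k1 N)).1 (lt_K.2 ⟨by show 1 < 2; omega, hy.2⟩)
  have e2 : k0 N = k1 N := e0.trans e1.symm
  have e3 : (0 : ℕ) = 1 := congrArg (fun t : Fin (N + 3) => t.val) e2
  omega

theorem unsorted_K {N : ℕ} {L : K N → ℕ} (hL : IsState 0 L) {y : K N} (hy : Fin.val y < 2)
    (hLy : L y = N + 3) : ¬ Sorted 0 (run 0 L N) := by
  intro hs
  have hst := hL.run0 N
  have hmin : IsMin y := by
    intro v hv
    rcases hv with h | h
    · exact h ▸ le_rfl
    · omega
  have h1 := stay_min hL hmin (by rw [hLy, card_K]) (i := N) (by rw [card_K]; omega)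
  rw [card_K] at h1
  obtain ⟨u, hu⟩ := hst.exists_key (k := N + 1) (by omega) (by rw [card_K]; omega)
  obtain ⟨v, hv⟩ := hst.exists_key (k := N + 2) (by omega) (by rw [card_K]; omega)
  have huy : u ≠ y := fun e => by rw [e, h1] at hu; omega
  have hvy : v ≠ y := fun e => by rw [e, h1] at hv; omega
  have huv : u ≠ v := fun e => by rw [e, hv] at hu; omega
  have key : ∀ w : K N, 2 ≤ Fin.val w → run 0 L N w < N + 3 → False := by
    intro w hw hlt
    have := hs y w (lt_K.2 ⟨hy, hw⟩) (by omega)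
    omega
  have h2 : Fin.val u < 2 := by
    by_contra h
    exact key u (by omega) (by omega)
  have h3 : Fin.val v < 2 := by
    by_contra h
    exact key v (by omega) (by omega)
  have e1 : Fin.val u ≠ Fin.val y := fun e => huy (Fin.ext e)
  have e2 : Fin.val v ≠ Fin.val y := fun e => hvy (Fin.ext e)
  have e3 : Fin.val u ≠ Fin.val v := fun e => huv (Fin.ext e)
  omega

/-- There are at least `(n - 1)!` labelings with the largest label at `y`. -/
theorem card_one {P : Type*} [PartialOrder P] [Fintype P] {N : ℕ} (hN : Fintype.card P = N + 1)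
    (y : P) : N.factorial ≤ {L : P → ℕ | IsState 0 L ∧ L y = N + 1}.ncard := by
  classical
  have hc : Fintype.card {u : P // u ≠ y} = N := by
    rw [Fintype.card_subtype_compl, Fintype.card_subtype_eq, hN]
    omega
  have hemb : Fintype.card ({u : P // u ≠ y} ↪ Fin N) = N.factorial := by
    rw [Fintype.card_embedding_eq, hc, Fintype.card_fin, Nat.descFactorial_self]
  rw [← hemb, ← Nat.card_eq_fintype_card, ← Set.ncard_univ]
  refine Set.ncard_le_ncard_of_injOn (fun (e : {u : P // u ≠ y} ↪ Fin N) (u : P) =>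
    if h : u = y then N + 1 else (e ⟨u, h⟩ : ℕ) + 1) ?_ ?_
    ((finite_states (P := P) 0).subset fun _ hL => hL.1)
  · intro e _
    refine ⟨⟨fun u v huv => ?_, fun u => ?_⟩, ?_⟩
    · by_cases hu : u = y <;> by_cases hv : v = y
      · rw [hu, hv]
      · simp only [dif_pos hu, dif_neg hv] at huv
        have := (e ⟨v, hv⟩).2
        omega
      · simp only [dif_neg hu, dif_pos hv] at huv
        have := (e ⟨u, hu⟩).2
        omega
      · simp only [dif_neg hu, dif_neg hv] at huv
        have h1 : e ⟨u, hu⟩ = e ⟨v, hv⟩ := Fin.ext (by omega)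
        exact congrArg Subtype.val (e.injective h1)
    · by_cases hu : u = y
      · simp only [dif_pos hu]
        omega
      · simp only [dif_neg hu]
        have := (e ⟨u, hu⟩).2
        omega
    · simp
  · intro e _ e' _ hee
    refine DFunLike.ext _ _ fun u => Fin.ext ?_
    have h1 := congrFun hee u.1
    simp only [dif_neg u.2] at h1
    have h2 : (e u : ℕ) + 1 = (e' u : ℕ) + 1 := h1
    omega

theorem card_K_quasi (N : ℕ) : 2 * (N + 2).factorial ≤
    {L : K N → ℕ | IsState 0 L ∧ Sorted 0 (run 0 L (N + 1)) ∧ ¬ Sorted 0 (run 0 L N)}.ncard := by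
  have h0 := card_one (P := K N) (N := N + 2) (card_K N) (k0 N)
  have h1 := card_one (P := K N) (N := N + 2) (card_K N) (k1 N)
  have hd : Disjoint {L : K N → ℕ | IsState 0 L ∧ L (k0 N) = N + 2 + 1}
      {L : K N → ℕ | IsState 0 L ∧ L (k1 N) = N + 2 + 1} := by
    rw [Set.disjoint_left]
    rintro L ⟨hL, h2⟩ ⟨-, h3⟩
    have e2 : k0 N = k1 N := hL.1 (h2.trans h3.symm)
    have e3 : (0 : ℕ) = 1 := congrArg (fun t : Fin (N + 3) => t.val) e2
    omega
  have hf : ∀ y : K N, {L : K N → ℕ | IsState 0 L ∧ L y = N + 2 + 1}.Finite := fun y =>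
    (finite_states (P := K N) 0).subset fun _ hL => hL.1
  have h2 := Set.ncard_union_eq hd (hf _) (hf _)
  have h3 : ({L : K N → ℕ | IsState 0 L ∧ L (k0 N) = N + 2 + 1} ∪
      {L : K N → ℕ | IsState 0 L ∧ L (k1 N) = N + 2 + 1}).ncard ≤
      {L : K N → ℕ | IsState 0 L ∧ Sorted 0 (run 0 L (N + 1)) ∧
        ¬ Sorted 0 (run 0 L N)}.ncard := by
    refine Set.ncard_le_ncard ?_ ((finite_states (P := K N) 0).subset fun _ hL => hL.1)
    rintro L (⟨hL, h⟩ | ⟨hL, h⟩)
    · exact ⟨hL, sorted_K hL, unsorted_K hL (y := k0 N) (by show 0 < 2; omega) h⟩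
    · exact ⟨hL, sorted_K hL, unsorted_K hL (y := k1 N) (by show 1 < 2; omega) h⟩
  omega

end Pool.Agent.U620.TG
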