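import Pool.Agent.U620.TG.A

/-!
Tangled labelings: the general upper bound, in terms of the definitions of the problem.
-/

set_option autoImplicit false
set_option linter.unusedSectionVars false

namespace Pool.Agent.U620.TG

open Pool.Agent.W5h8.Tang

/-- `L` is a tangled labeling: `n ≥ 2` and `∂ ^ (n - 2) (L)` is not a linear extension. -/
def Tangled {P : Type} [PartialOrder P] [Fintype P] (L : P → ℕ) : Prop :=
  IsLabeling L ∧ 2 ≤ Fintype.card P ∧ ¬ IsLinExt (promote^[Fintype.card P - 2] L)

/-- Every element `x` is in at most one pair `(y, x)`. -/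
def Unshared (P : Type) [PartialOrder P] : Prop :=
  ∀ x y y' : P, (y, x) ∈ Pairs P → (y', x) ∈ Pairs P → y = y'

theorem card_pairs {P : Type} [PartialOrder P] [Fintype P] (h : Unshared P) :
    (Pairs P).ncard ≤ Fintype.card P - {x : P | IsMin x}.ncard := by
  classical
  have h1 : (Pairs P).ncard ≤ {x : P | ¬ IsMin x}.ncard := by
    refine Set.ncard_le_ncard_of_injOn Prod.snd ?_ ?_ (Set.toFinite _)
    · rintro ⟨y, x⟩ ⟨z, hz, hy⟩ hmin
      have : y < x := lt_of_lt_of_le ((hy y).2 rfl) hz
      exact this.not_ge (hmin this.le)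
    · rintro ⟨y, x⟩ hp ⟨y', x'⟩ hp' e
      have e' : x = x' := e
      subst e'
      rw [h x y y' hp hp']
  have h2 : {x : P | ¬ IsMin x}.ncard = Fintype.card P - {x : P | IsMin x}.ncard := by
    rw [← Nat.card_eq_fintype_card, ← Set.ncard_compl _]
    rfl
  omega

theorem bound (P : Type) [PartialOrder P] [Fintype P] :
    {L : P → ℕ | Tangled L}.ncard ≤
      (Fintype.card P - 2).factorial * (Pairs P).ncard := by
  by_cases h2 : 2 ≤ Fintype.card P
  · obtain ⟨N, hN⟩ := Nat.exists_eq_add_of_le' h2
    have h1 := card_tangled (P := P) hN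
    have h3 : {L : P → ℕ | Tangled L} ⊆
        {L : P → ℕ | IsState 0 L ∧ ¬ Sorted 0 (run 0 L N)} := by
      rintro L ⟨hL, -, hns⟩
      have hL' := (isLabeling_iff L).1 hL
      refine ⟨hL', fun hs => hns ?_⟩
      have e : Fintype.card P - 2 = N := by omega
      rw [e]
      exact (isLinExt_iff hL' N).2 hs
    have e : Fintype.card P - 2 = N := by omega
    rw [e]
    exact (Set.ncard_le_ncard h3 ((finite_states (P := P) 0).subset fun _ hL => hL.1)).trans h1
  · have : {L : P → ℕ | Tangled L} = ∅ := by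
      ext L
      refine ⟨fun h => absurd h.2.1 h2, fun h => absurd h (Set.notMem_empty _)⟩
    rw [this, Set.ncard_empty]
    exact Nat.zero_le _

theorem exists_min {P : Type} [PartialOrder P] [Fintype P] (h2 : 2 ≤ Fintype.card P) :
    0 < {x : P | IsMin x}.ncard := by
  rw [Set.ncard_pos (Set.toFinite _)]
  have : Nonempty P := Fintype.card_pos_iff.1 (by omega)
  obtain ⟨m, hm⟩ := (Set.toFinite (Set.univ : Set P)).exists_minimal Set.univ_nonempty
  exact ⟨m, fun v hv => hm.2 trivial hv⟩

theorem tangled_empty {P : Type} [PartialOrder P] [Fintype P] (h2 : ¬ 2 ≤ Fintype.card P) :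
    {L : P → ℕ | Tangled L}.ncard = 0 := by
  have : {L : P → ℕ | Tangled L} = ∅ := by
    ext L
    refine ⟨fun h => absurd h.2.1 h2, fun h => absurd h (Set.notMem_empty _)⟩
  rw [this, Set.ncard_empty]

end Pool.Agent.U620.TG
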