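import Pool.Agent.U620.TG.A
import Pool.Agent.U620.TG.B

/-!
Labelings that are not sorted after `n - 3` promotions: an upper bound for every finite poset.
-/

set_option autoImplicit false
set_option linter.unusedSectionVars false

namespace Pool.Agent.U620.TG

open Pool.Agent.W5h8.Tang

variable {P : Type*} [PartialOrder P] [Fintype P]

theorem struct2 {L : P → ℕ} (hL : IsState 0 L) {N : ℕ} (hN : Fintype.card P = N + 3)
    (hns : ¬ Sorted 0 (run 0 L N)) :
    ∃ y z x, y < z ∧ z ≤ x ∧ {u | u < z}.ncard ≤ 2 ∧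
      ((L y = N + 3 ∧ L x = N + 2) ∨ (L y = N + 3 ∧ L x = N + 1) ∨
        (L y = N + 2 ∧ L x = N + 1)) := by
  have hst := hL.run0 N
  have hhigh := sorted_high hL N
  rw [hN] at hhigh
  unfold Sorted at hns
  push Not at hns
  obtain ⟨y, z, hyz, _, hle⟩ := hns
  have hne : run 0 L N z ≠ run 0 L N y := fun h => absurd (hst.1 h) hyz.ne'
  have hy1 : run 0 L N y ≤ N + 3 := by
    by_contra h
    have := hhigh y z hyz (by omega)
    omega
  have h1 := (hst.2 z).1
  obtain ⟨a, ha⟩ : ∃ a, run 0 L N y = a := ⟨_, rfl⟩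
  obtain ⟨b, hb⟩ : ∃ b, run 0 L N z = b := ⟨_, rfl⟩
  have hba : b < a := by
    rw [← ha, ← hb]
    omega
  have hD : {u | u < z}.ncard ≤ 2 := by
    have hmaps : ∀ u ∈ {u | u < z}, run 0 L N u ∈ ((Finset.Icc (N + 1) (N + 3)).erase b : Set ℕ) := by
      intro u hu
      have hu1 : u < z := hu
      have hu2 := (hst.2 u).1
      have hu3 : run 0 L N u ≠ b := fun h => hu1.ne (hst.1 (h.trans hb.symm))
      have hu4 : run 0 L N u ≤ N + 3 := by
        by_contra h
        have := hhigh u z hu1 (by omega)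
        omega
      rw [Finset.mem_coe, Finset.mem_erase, Finset.mem_Icc]
      exact ⟨hu3, by omega, hu4⟩
    have h5 := Set.ncard_le_ncard_of_injOn (run 0 L N) hmaps (hst.1.injOn) (Finset.finite_toSet _)
    rw [Set.ncard_coe_finset, Finset.card_erase_of_mem (by rw [Finset.mem_Icc]; omega),
      Nat.card_Icc] at h5
    omega
  rw [ha] at hy1
  have hback : ∀ i ≤ N, run 0 L (N - i) y = a ∧ ∃ z', z ≤ z' ∧ run 0 L (N - i) z' = b := by
    intro i hi
    induction i with
    | zero => exact ⟨ha, z, le_rfl, hb⟩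
    | succ i ih =>
      obtain ⟨ih1, z', hz'1, hz'2⟩ := ih (by omega)
      have e1 : N - i = (N - (i + 1)) + 1 := by omega
      have hst' := hL.run0 (N - (i + 1))
      rw [e1] at ih1 hz'2
      obtain ⟨z2, hz2, hz2'⟩ := prom_key_up_le (hL.run (N - (i + 1))).1 hz'2 (by omega)
      obtain ⟨p, hp, h | h⟩ := prom_key_up (hL.run (N - (i + 1))).1 ih1 (by omega)
      · exact ⟨by rw [← h.1, hp], z2, hz'1.trans hz2, hz2'⟩
      · have h7 := h.2.2 z2 (lt_of_lt_of_le hyz (hz'1.trans hz2))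
        exact absurd (h7.trans_eq hz2') (not_le.2 (hba.trans_eq hp.symm))
  obtain ⟨h2, z', h3, h4⟩ := hback N le_rfl
  rw [Nat.sub_self] at h2 h4
  have h5 : L y = a := h2
  have h6 : L z' = b := h4
  rw [hb] at h1
  exact ⟨y, z, z', hyz, h3, hD, by omega⟩

/-- The pairs `(y, x)` such that some `z ≤ x` is above `y` and above at most two elements. -/
def Pairs2 (P : Type*) [PartialOrder P] : Set (P × P) :=
  {p | ∃ z, p.1 < z ∧ z ≤ p.2 ∧ {u | u < z}.ncard ≤ 2}

theorem card_three {N : ℕ} (hN : Fintype.card P = N + 3) {y x : P} (hxy : y ≠ x) :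
    {L : P → ℕ | IsState 0 L ∧ ((L y = N + 3 ∧ L x = N + 2) ∨ (L y = N + 3 ∧ L x = N + 1) ∨
        (L y = N + 2 ∧ L x = N + 1))}.ncard ≤ 3 * (N + 1).factorial := by
  have hf : ∀ a b : ℕ, {L : P → ℕ | IsState 0 L ∧ L y = a ∧ L x = b}.Finite := fun a b =>
    (finite_states (P := P) 0).subset fun _ hL => hL.1
  have e1 : {L : P → ℕ | IsState 0 L ∧ L y = N + 3 ∧ L x = N + 2}.ncard ≤ (N + 1).factorial :=
    card_two (N := N + 1) hN hxy
  have e2 : {L : P → ℕ | IsState 0 L ∧ L y = N + 3 ∧ L x = N + 1}.ncard ≤ (N + 1).factorial := by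
    refine (Set.ncard_le_ncard_of_injOn (swp (N + 1) (N + 2)) ?_
      (swp_inj (N + 1) (N + 2)).injOn (hf (N + 3) (N + 2))).trans e1
    rintro L ⟨hL, h1, h2⟩
    exact ⟨hL.swp (by omega) (by omega) (by omega) (by omega),
      (swp_of_ne (by rw [h1]; omega) (by rw [h1]; omega)).trans h1, swp_left h2⟩
  have e3 : {L : P → ℕ | IsState 0 L ∧ L y = N + 2 ∧ L x = N + 1}.ncard ≤ (N + 1).factorial := by
    refine (Set.ncard_le_ncard_of_injOn (swp (N + 2) (N + 3)) ?_
      (swp_inj (N + 2) (N + 3)).injOn (hf (N + 3) (N + 1))).trans e2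
    rintro L ⟨hL, h1, h2⟩
    exact ⟨hL.swp (by omega) (by omega) (by omega) (by omega), swp_left h1,
      (swp_of_ne (by rw [h2]; omega) (by rw [h2]; omega)).trans h2⟩
  have hsub : {L : P → ℕ | IsState 0 L ∧ ((L y = N + 3 ∧ L x = N + 2) ∨
      (L y = N + 3 ∧ L x = N + 1) ∨ (L y = N + 2 ∧ L x = N + 1))} ⊆
      {L : P → ℕ | IsState 0 L ∧ L y = N + 3 ∧ L x = N + 2} ∪
      ({L : P → ℕ | IsState 0 L ∧ L y = N + 3 ∧ L x = N + 1} ∪
        {L : P → ℕ | IsState 0 L ∧ L y = N + 2 ∧ L x = N + 1}) := by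
    rintro L ⟨hL, h | h | h⟩
    · exact Or.inl ⟨hL, h⟩
    · exact Or.inr (Or.inl ⟨hL, h⟩)
    · exact Or.inr (Or.inr ⟨hL, h⟩)
  have h0 := Set.ncard_le_ncard hsub ((hf _ _).union ((hf _ _).union (hf _ _)))
  have h1 := Set.ncard_union_le {L : P → ℕ | IsState 0 L ∧ L y = N + 3 ∧ L x = N + 2}
    ({L : P → ℕ | IsState 0 L ∧ L y = N + 3 ∧ L x = N + 1} ∪
        {L : P → ℕ | IsState 0 L ∧ L y = N + 2 ∧ L x = N + 1})
  have h2 := Set.ncard_union_le {L : P → ℕ | IsState 0 L ∧ L y = N + 3 ∧ L x = N + 1}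
        {L : P → ℕ | IsState 0 L ∧ L y = N + 2 ∧ L x = N + 1}
  omega

theorem card_unsorted2 {N : ℕ} (hN : Fintype.card P = N + 3) :
    {L : P → ℕ | IsState 0 L ∧ ¬ Sorted 0 (run 0 L N)}.ncard ≤
      3 * (N + 1).factorial * (Pairs2 P).ncard := by
  classical
  have hfin : (Pairs2 P).Finite := Set.toFinite _
  let S : P × P → Set (P → ℕ) := fun p => {L : P → ℕ | IsState 0 L ∧
    ((L p.1 = N + 3 ∧ L p.2 = N + 2) ∨ (L p.1 = N + 3 ∧ L p.2 = N + 1) ∨
      (L p.1 = N + 2 ∧ L p.2 = N + 1))}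
  have hsub : {L : P → ℕ | IsState 0 L ∧ ¬ Sorted 0 (run 0 L N)} ⊆
      ⋃ p ∈ hfin.toFinset, S p := by
    rintro L ⟨hL, hns⟩
    obtain ⟨y, z, x, h1, h2, h3, h4⟩ := struct2 hL hN hns
    simp only [Set.mem_iUnion, Set.Finite.mem_toFinset]
    exact ⟨(y, x), ⟨z, h1, h2, h3⟩, hL, h4⟩
  have hU : (⋃ p ∈ hfin.toFinset, S p).Finite :=
    (finite_states (P := P) 0).subset fun L hL => by
      simp only [Set.mem_iUnion] at hL
      obtain ⟨_, _, h⟩ := hL
      exact h.1
  refine (Set.ncard_le_ncard hsub hU).trans ?_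
  have h2 : ∀ s : Finset (P × P), (∀ p ∈ s, p.1 ≠ p.2) →
      (⋃ p ∈ s, S p).ncard ≤ 3 * (N + 1).factorial * s.card := by
    intro s
    induction s using Finset.induction_on with
    | empty => intro _; simp
    | insert p s hp ih =>
      intro hs
      have e : 3 * (N + 1).factorial * (insert p s).card =
          3 * (N + 1).factorial + 3 * (N + 1).factorial * s.card := by
        rw [Finset.card_insert_of_notMem hp]
        ring
      rw [e, Finset.set_biUnion_insert]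
      exact (Set.ncard_union_le _ _).trans (add_le_add
        (card_three hN (hs p (Finset.mem_insert_self _ _)))
        (ih fun q hq => hs q (Finset.mem_insert_of_mem hq)))
  have h3 := h2 hfin.toFinset (fun p hp => by
    obtain ⟨z, h4, h5, -⟩ := (Set.Finite.mem_toFinset _).1 hp
    exact (lt_of_lt_of_le h4 h5).ne)
  rwa [← Set.ncard_eq_toFinset_card _ hfin] at h3

end Pool.Agent.U620.TG
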